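import Pool.Agent.L7h57.RV.Stm

set_option autoImplicit false

/-! # RV, part CAU: Cauchy matrices -/

namespace Pool.Agent.L7h12.RV

open Pool.Agent.L7h57.RV Pool.Helper89.Rev Polynomial Lagrange

section
variable {n : ℕ} (b μ : Fin n → ℂ)

/-- the difference of the two nodal polynomials -/
noncomputable def WW : ℂ[X] := nodal Finset.univ b - nodal Finset.univ μ

theorem WW_degree (hn : 0 < n) : (WW b μ).degree < n := by
  have h1 : (nodal Finset.univ b).degree = n := by rw [degree_nodal]; simp
  have h2 : (nodal Finset.univ μ).degree = n := by rw [degree_nodal]; simp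
  have h3 : (nodal Finset.univ b).Monic := nodal_monic
  have h4 : (nodal Finset.univ μ).Monic := nodal_monic
  have := degree_sub_lt (h1.trans h2.symm) h3.ne_zero (h3.leadingCoeff.trans h4.leadingCoeff.symm)
  rwa [h1] at this

/-- the coefficients -/
noncomputable def cc (j : Fin n) : ℂ :=
  nodalWeight Finset.univ b j * eval (b j) (nodal Finset.univ μ)

theorem cc_ne (hb : Function.Injective b) (hbm : ∀ i k, b i ≠ μ k) (j : Fin n) :
    cc b μ j ≠ 0 := by
  unfold cc
  refine mul_ne_zero (nodalWeight_ne_zero (hb.injOn) (Finset.mem_univ j)) ?_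
  rw [eval_nodal]
  exact Finset.prod_ne_zero_iff.2 fun k _ => sub_ne_zero.2 (hbm j k)

theorem key (hn : 0 < n) (hb : Function.Injective b) (x : ℂ) (hx : ∀ i, x ≠ b i) :
    eval x (nodal Finset.univ b) - eval x (nodal Finset.univ μ) =
      eval x (nodal Finset.univ b) * ∑ j, cc b μ j / (b j - x) := by
  have h1 : WW b μ = interpolate Finset.univ b fun i => (WW b μ).eval (b i) :=
    eq_interpolate hb.injOn (by
      have := WW_degree b μ hn
      simpa using this)
  have h2 : eval x (WW b μ) = eval x (nodal Finset.univ b) *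
      ∑ i, nodalWeight Finset.univ b i * (x - b i)⁻¹ * (WW b μ).eval (b i) := by
    conv_lhs => rw [h1]
    exact eval_interpolate_not_at_node _ (fun i _ => hx i)
  have h3 : eval x (WW b μ) = eval x (nodal Finset.univ b) - eval x (nodal Finset.univ μ) := by
    unfold WW; rw [eval_sub]
  rw [← h3, h2]
  congr 1
  refine Finset.sum_congr rfl fun i _ => ?_
  have h4 : (WW b μ).eval (b i) = - eval (b i) (nodal Finset.univ μ) := by
    unfold WW
    rw [eval_sub, eval_nodal_at_node (Finset.mem_univ i), zero_sub]
  rw [h4]
  unfold cc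
  have h5 : x - b i ≠ 0 := sub_ne_zero.2 (hx i)
  have h6 : b i - x ≠ 0 := fun h => h5 (by linear_combination -h)
  rw [show b i - x = -(x - b i) by ring, div_neg, div_eq_mul_inv]
  ring

theorem nodal_ne {x : ℂ} (hx : ∀ i, x ≠ b i) : eval x (nodal Finset.univ b) ≠ 0 := by
  rw [eval_nodal]
  exact Finset.prod_ne_zero_iff.2 fun k _ => sub_ne_zero.2 (hx k)

theorem ker (hb : Function.Injective b) (hμ : Function.Injective μ) (hbm : ∀ i k, b i ≠ μ k)
    (x : Fin n → ℂ) (hx : ∀ k, ∑ j, x j / (b j - μ k) = 0) : x = 0 := by
  set r : Fin n → ℂ := fun j => x j / nodalWeight Finset.univ b j with hr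
  have hw : ∀ j, nodalWeight Finset.univ b j ≠ 0 := fun j =>
    nodalWeight_ne_zero hb.injOn (Finset.mem_univ j)
  have hdeg : (interpolate Finset.univ b r).degree < (Finset.univ : Finset (Fin n)).card :=
    degree_interpolate_lt _ hb.injOn
  have h0 : interpolate Finset.univ b r = 0 := by
    refine eq_zero_of_degree_lt_of_eval_index_eq_zero (v := μ) (s := Finset.univ) hμ.injOn hdeg ?_
    intro k _
    rw [eval_interpolate_not_at_node r (fun i _ => (hbm i k).symm)]
    have : ∑ i, nodalWeight Finset.univ b i * (μ k - b i)⁻¹ * r i = - ∑ j, x j / (b j - μ k) := by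
      rw [← Finset.sum_neg_distrib]
      refine Finset.sum_congr rfl fun i _ => ?_
      rw [hr]
      have h5 : μ k - b i ≠ 0 := sub_ne_zero.2 (hbm i k).symm
      have := hw i
      rw [show b i - μ k = -(μ k - b i) by ring, div_neg]
      field_simp
    rw [this, hx k, neg_zero, mul_zero]
  funext j
  have h1 : eval (b j) (interpolate Finset.univ b r) = r j :=
    eval_interpolate_at_node r hb.injOn (Finset.mem_univ j)
  rw [h0, eval_zero] at h1
  have h2 : x j / nodalWeight Finset.univ b j = 0 := h1.symm
  rcases div_eq_zero_iff.1 h2 with h | h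
  · exact h
  · exact absurd h (hw j)

end

theorem s_CAU : S_CAU := by
  intro n b μ hb hμ hbm hb0
  rcases Nat.eq_zero_or_pos n with hn | hn
  · subst hn
    refine ⟨Fin.elim0, 1, isUnit_one, ?_, fun i => i.elim0, ?_⟩
    · ext i; exact i.elim0
    · intro h
      simp at h
      norm_num at h
  have hsum : ∀ k, ∑ j, cc b μ j / (b j - μ k) = 1 := by
    intro k
    have h1 := key b μ hn hb (μ k) (fun i => (hbm i k).symm)
    rw [eval_nodal_at_node (Finset.mem_univ k), sub_zero] at h1
    have h2 := nodal_ne b (x := μ k) (fun i => (hbm i k).symm)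
    have h3 : eval (μ k) (nodal Finset.univ b) * (∑ j, cc b μ j / (b j - μ k) - 1) = 0 := by
      linear_combination -h1
    rcases mul_eq_zero.1 h3 with h | h
    · exact absurd h h2
    · linear_combination h
  set v : Fin n → ℂ := fun j => cc b μ j / (2 * b j) with hv
  have hv0 : ∀ j, v j ≠ 0 := fun j =>
    div_ne_zero (cc_ne b μ hb hbm j) (mul_ne_zero two_ne_zero (hb0 j))
  have hvc : ∀ j, 2 * (b j * v j) = cc b μ j := by
    intro j
    rw [hv]
    have := hb0 j
    field_simp
  set Q : Matrix (Fin n) (Fin n) ℂ := Matrix.of fun k j => v j / (b j - μ k) with hQ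
  refine ⟨v, Q, ?_, ?_, hv0, ?_⟩
  · rw [← Matrix.mulVec_injective_iff_isUnit]
    have hlin : Function.Injective Q.mulVecLin := by
      rw [injective_iff_map_eq_zero]
      intro y hy
      have h1 : (fun j => v j * y j) = 0 := by
        apply ker b μ hb hμ hbm
        intro k
        have h2 : (Q.mulVec y) k = 0 := by
          have : Q.mulVecLin y = 0 := hy
          rw [Matrix.mulVecLin_apply] at this
          rw [this]; rfl
        rw [Matrix.mulVec, dotProduct] at h2
        rw [← h2]
        refine Finset.sum_congr rfl fun j _ => ?_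
        simp only [hQ, Matrix.of_apply]
        ring
      funext j
      have h3 := congrFun h1 j
      simp only [Pi.zero_apply, mul_eq_zero] at h3
      rcases h3 with h | h
      · exact absurd h (hv0 j)
      · exact h
    exact hlin
  · ext k l
    rw [Matrix.mul_apply, Matrix.diagonal_mul]
    simp only [Matrix.diagonal_mul, Sm, Matrix.of_apply, hQ]
    have e : ∀ j, v j / (b j - μ k) * (b j * ((if j = l then 1 else 0) - 2 * v l)) =
        (if j = l then v l / (b l - μ k) * b l else 0) - v l * (cc b μ j / (b j - μ k)) := by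
      intro j
      rw [← hvc j]
      split_ifs with h
      · subst h; ring
      · ring
    rw [Finset.sum_congr rfl fun j _ => e j, Finset.sum_sub_distrib, ← Finset.mul_sum, hsum k]
    simp only [Finset.sum_ite_eq', Finset.mem_univ, if_true]
    have h5 : b l - μ k ≠ 0 := sub_ne_zero.2 (hbm l k)
    field_simp
    ring
  · intro hprod
    have h1 := key b μ hn hb 0 (fun i => (hb0 i).symm)
    have h2 := nodal_ne b (x := 0) (fun i => (hb0 i).symm)
    have e1 : eval 0 (nodal Finset.univ b) = (-1) ^ n * ∏ i, b i := by
      rw [eval_nodal]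
      simp only [zero_sub]
      rw [Finset.prod_neg]
      simp
    have e2 : eval 0 (nodal Finset.univ μ) = (-1) ^ n * ∏ i, μ i := by
      rw [eval_nodal]
      simp only [zero_sub]
      rw [Finset.prod_neg]
      simp
    have e3 : eval 0 (nodal Finset.univ μ) = - eval 0 (nodal Finset.univ b) := by
      rw [e1, e2, hprod]; ring
    rw [e3] at h1
    have e4 : ∑ j, cc b μ j / (b j - 0) = 2 * ∑ i, v i := by
      rw [Finset.mul_sum]
      refine Finset.sum_congr rfl fun j _ => ?_
      rw [sub_zero, hv]
      have := hb0 j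
      field_simp
    rw [e4] at h1
    have h3 : eval 0 (nodal Finset.univ b) * (∑ i, v i - 1) = 0 := by
      linear_combination (-1/2) * h1
    rcases mul_eq_zero.1 h3 with h | h
    · exact absurd h h2
    · linear_combination h

end Pool.Agent.L7h12.RV
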