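import Pool.Agent.L7h57.RV.Stm

set_option autoImplicit false

/-! # RV, part DEG3: the bracket near `(xE, yE)` is open in degree three -/

namespace Pool.Agent.L7h12.RV

open Pool.Agent.L7h57.RV Pool.Helper89.Rev MvPolynomial

/-- a quadratic form -/
noncomputable def qf (a b c : ℂ) : MvPolynomial (Fin 2) ℂ :=
  C a * X 0 ^ 2 + C b * (X 0 * X 1) + C c * X 1 ^ 2

theorem qf_hom (a b c : ℂ) : (qf a b c).IsHomogeneous 2 := by
  unfold qf
  refine ((?_ : IsHomogeneous _ 2).add ?_).add ?_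
  · simpa using (isHomogeneous_C (Fin 2) a).mul ((isHomogeneous_X ℂ (0 : Fin 2)).pow 2)
  · simpa using (isHomogeneous_C (Fin 2) b).mul
      ((isHomogeneous_X ℂ (0 : Fin 2)).mul (isHomogeneous_X ℂ (1 : Fin 2)))
  · simpa using (isHomogeneous_C (Fin 2) c).mul ((isHomogeneous_X ℂ (1 : Fin 2)).pow 2)

theorem nr1_eq {p : MvPolynomial (Fin 2) ℂ} {T : Finset (Fin 2 →₀ ℕ)} (hT : p.support ⊆ T) :
    nr1 p = ∑ m ∈ T, ‖coeff m p‖ := by
  unfold nr1
  refine Finset.sum_subset hT fun m _ hm => ?_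
  rw [notMem_support_iff.1 hm, norm_zero]

theorem nr1_add (p q : MvPolynomial (Fin 2) ℂ) : nr1 (p + q) ≤ nr1 p + nr1 q := by
  classical
  rw [nr1_eq (p := p + q) (T := p.support ∪ q.support) support_add,
    nr1_eq (p := p) (T := p.support ∪ q.support) Finset.subset_union_left,
    nr1_eq (p := q) (T := p.support ∪ q.support) Finset.subset_union_right,
    ← Finset.sum_add_distrib]
  refine Finset.sum_le_sum fun m _ => ?_
  rw [coeff_add]
  exact norm_add_le _ _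

theorem nr1_monomial (m : Fin 2 →₀ ℕ) (a : ℂ) : nr1 (monomial m a) ≤ ‖a‖ := by
  classical
  rw [nr1_eq (T := {m}) support_monomial_subset, Finset.sum_singleton, coeff_monomial, if_pos rfl]

theorem nr1_qf (a b c : ℂ) : nr1 (qf a b c) ≤ ‖a‖ + ‖b‖ + ‖c‖ := by
  have e1 : C a * X (0 : Fin 2) ^ 2 = monomial (Finsupp.single 0 2) a := by
    rw [C_mul_X_pow_eq_monomial]
  have e2 : C b * (X (0 : Fin 2) * X 1) =
      monomial (Finsupp.single 0 1 + Finsupp.single 1 1) b := by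
    rw [← mul_one b, monomial_add_single, ← C_mul_X_eq_monomial]
    simp [mul_assoc]
  have e3 : C c * X (1 : Fin 2) ^ 2 = monomial (Finsupp.single 1 2) c := by
    rw [C_mul_X_pow_eq_monomial]
  unfold qf
  rw [e1, e2, e3]
  calc _ ≤ nr1 (monomial (Finsupp.single 0 2) a + monomial (Finsupp.single 0 1 +
        Finsupp.single 1 1) b) + nr1 (monomial (Finsupp.single 1 2) c) := nr1_add _ _
    _ ≤ (nr1 (monomial (Finsupp.single 0 2) a) + nr1 (monomial (Finsupp.single 0 1 +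
        Finsupp.single 1 1) b)) + nr1 (monomial (Finsupp.single 1 2) c) := by
      gcongr; exact nr1_add _ _
    _ ≤ _ := by
      gcongr <;> exact nr1_monomial _ _

theorem cubic {P : MvPolynomial (Fin 2) ℂ} (hP : P.IsHomogeneous 3) :
    ∃ r : ℕ → ℂ, ∀ x : Fin 2 → ℂ, eval x P =
      r 0 * x 0 ^ 3 + r 1 * (x 0 ^ 2 * x 1) + r 2 * (x 0 * x 1 ^ 2) + r 3 * x 1 ^ 3 := by
  classical
  set e : ℕ → (Fin 2 →₀ ℕ) := fun k => Finsupp.single 0 (3 - k) + Finsupp.single 1 k with he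
  have he0 : ∀ k, e k 0 = 3 - k := by intro k; simp [he]
  have he1 : ∀ k, e k 1 = k := by intro k; simp [he]
  refine ⟨fun k => coeff (e k) P, fun x => ?_⟩
  have hsub : P.support ⊆ (Finset.range 4).image e := by
    intro m hm
    have hdeg : m.degree = 3 := by
      by_contra h
      exact (mem_support_iff.1 hm) (hP.coeff_eq_zero h)
    rw [Finsupp.degree_eq_sum, Fin.sum_univ_two] at hdeg
    rw [Finset.mem_image]
    refine ⟨m 1, Finset.mem_range.2 (by omega), ?_⟩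
    ext i
    fin_cases i
    · change e (m 1) 0 = m 0
      rw [he0]; omega
    · change e (m 1) 1 = m 1
      rw [he1]
  rw [eval_eq', Finset.sum_subset hsub (fun m _ hm => by
    rw [notMem_support_iff.1 hm, zero_mul]), Finset.sum_image (fun a _ b _ h => by
    rw [← he1 a, ← he1 b, h])]
  simp only [Finset.sum_range_succ, Finset.sum_range_zero, Fin.prod_univ_two, he0, he1]
  ring

/-- the parameter space -/
abbrev U8 := Fin 8 → ℂ

theorem hs (i j : Fin 8) (c : ℂ) :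
    HasStrictFDerivAt (fun u : U8 => c * (u i * u j)) (0 : U8 →L[ℂ] ℂ) 0 := by
  have h1 : HasStrictFDerivAt (fun u : U8 => u i)
      (ContinuousLinearMap.proj (R := ℂ) (φ := fun _ : Fin 8 => ℂ) i : U8 →L[ℂ] ℂ) 0 :=
    hasStrictFDerivAt_apply i (0 : U8)
  have h2 : HasStrictFDerivAt (fun u : U8 => u j)
      (ContinuousLinearMap.proj (R := ℂ) (φ := fun _ : Fin 8 => ℂ) j : U8 →L[ℂ] ℂ) 0 :=
    hasStrictFDerivAt_apply j (0 : U8)
  have h3 := (h1.mul h2).const_mul c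
  refine h3.congr_fderiv ?_
  apply ContinuousLinearMap.ext
  intro v
  change c * ((0 : U8) i * v j + (0 : U8) j * v i) = 0
  rw [Pi.zero_apply, Pi.zero_apply]
  ring

/-- the data of the quadratic part -/
def i1 : Fin 8 → Fin 8 := ![2, 2, 1, 2, 4, 4, 0, 3]
def j1 : Fin 8 → Fin 8 := ![4, 5, 7, 7, 1, 2, 7, 5]
def c1 : Fin 8 → ℂ := ![-1, -1, 2, 1, 2, 2, -2, 1]
def i2 : Fin 8 → Fin 8 := ![0, 3, 2, 3, 5, 5, 4, 0]
def j2 : Fin 8 → Fin 8 := ![0, 4, 6, 6, 0, 1, 3, 0]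
def c2 : Fin 8 → ℂ := ![0, -2, -1, -2, -1, 1, 2, 0]
def i3 : Fin 8 → Fin 8 := ![0, 7, 3, 0, 0, 6, 5, 0]
def j3 : Fin 8 → Fin 8 := ![0, 0, 5, 0, 0, 0, 2, 0]
def c3 : Fin 8 → ℂ := ![0, 2, -2, 0, 0, -2, 1, 0]

/-- the map of the coordinates -/
noncomputable def ff (u : U8) : U8 := fun k =>
  u k + (c1 k * (u (i1 k) * u (j1 k)) + (c2 k * (u (i2 k) * u (j2 k)) +
    c3 k * (u (i3 k) * u (j3 k))))

theorem ff_strict : HasStrictFDerivAt ff
    ((ContinuousLinearEquiv.refl ℂ U8 : U8 ≃L[ℂ] U8) : U8 →L[ℂ] U8) 0 := by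
  rw [hasStrictFDerivAt_pi']
  intro k
  have h1 := (hasStrictFDerivAt_apply (𝕜 := ℂ) (F' := fun _ : Fin 8 => ℂ) k (0 : U8))
  have h2 := h1.add ((hs (i1 k) (j1 k) (c1 k)).add ((hs (i2 k) (j2 k) (c2 k)).add
    (hs (i3 k) (j3 k) (c3 k))))
  have e : (ContinuousLinearMap.proj (R := ℂ) (φ := fun _ : Fin 8 => ℂ) k) +
      ((0 : U8 →L[ℂ] ℂ) + (0 + 0)) = (ContinuousLinearMap.proj (R := ℂ)
      (φ := fun _ : Fin 8 => ℂ) k).comp
        ((ContinuousLinearEquiv.refl ℂ U8 : U8 ≃L[ℂ] U8) : U8 →L[ℂ] U8) := by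
    ext; simp
  rw [e] at h2
  exact h2

theorem ff_zero : ff 0 = 0 := by
  funext k
  simp [ff]

theorem exists_small (η : ℝ) (hη : 0 < η) (r : U8) :
    ∃ c : ℂ, c ≠ 0 ∧ ∃ u : U8, (∀ k, ‖u k‖ < η) ∧ ff u = c • r := by
  have h1 : Filter.map ff (nhds 0) = nhds (ff 0) := ff_strict.map_nhds_eq_of_equiv
  rw [ff_zero] at h1
  have h2 : ff '' Metric.ball (0 : U8) η ∈ nhds (0 : U8) := by
    rw [← h1]
    exact Filter.image_mem_map (Metric.ball_mem_nhds _ hη)
  have h3 : Filter.Tendsto (fun c : ℂ => c • r) (nhdsWithin 0 {0}ᶜ) (nhds (0 : U8)) := by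
    have : Filter.Tendsto (fun c : ℂ => c • r) (nhds 0) (nhds ((0 : ℂ) • r)) :=
      (continuous_id.smul continuous_const).tendsto 0
    rw [zero_smul] at this
    exact this.mono_left nhdsWithin_le_nhds
  have h4 : ∀ᶠ c : ℂ in nhdsWithin 0 {0}ᶜ, c • r ∈ ff '' Metric.ball (0 : U8) η := h3 h2
  obtain ⟨c, hc1, hc2⟩ := (h4.and self_mem_nhdsWithin).exists
  obtain ⟨u, hu1, hu2⟩ := hc1
  refine ⟨c, hc2, u, fun k => ?_, hu2⟩
  rw [Metric.mem_ball, dist_zero_right] at hu1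
  exact (norm_le_pi_norm u k).trans_lt hu1

theorem s_DEG3 : S_DEG3 := by
  intro δ hδ R hR
  obtain ⟨r, hr⟩ := cubic (hR 0)
  obtain ⟨s, hs'⟩ := cubic (hR 1)
  obtain ⟨c, hc, u, hu, hff⟩ := exists_small (δ / 8) (by positivity)
    ![r 0, r 1, r 2, r 3, s 0, s 1, s 2, s 3]
  have g0 : u 0 - u 2 * u 4 = c * r 0 := by
    have := congrFun hff 0
    simp [ff, i1, j1, c1, i2, j2, c2, i3, j3, c3] at this
    linear_combination this
  have g1 : u 1 - u 2 * u 5 - 2 * u 3 * u 4 + 2 * u 7 * u 0 = c * r 1 := by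
    have := congrFun hff 1
    simp [ff, i1, j1, c1, i2, j2, c2, i3, j3, c3] at this
    linear_combination this
  have g2 : u 2 + 2 * u 1 * u 7 - u 2 * u 6 - 2 * u 3 * u 5 = c * r 2 := by
    have := congrFun hff 2
    simp [ff, i1, j1, c1, i2, j2, c2, i3, j3, c3] at this
    linear_combination this
  have g3 : u 3 + u 2 * u 7 - 2 * u 3 * u 6 = c * r 3 := by
    have := congrFun hff 3
    simp [ff, i1, j1, c1, i2, j2, c2, i3, j3, c3] at this
    linear_combination this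
  have g4 : u 4 + 2 * u 4 * u 1 - u 5 * u 0 = c * s 0 := by
    have := congrFun hff 4
    simp [ff, i1, j1, c1, i2, j2, c2, i3, j3, c3] at this
    linear_combination this
  have g5 : u 5 + 2 * u 4 * u 2 + u 5 * u 1 - 2 * u 6 * u 0 = c * s 1 := by
    have := congrFun hff 5
    simp [ff, i1, j1, c1, i2, j2, c2, i3, j3, c3] at this
    linear_combination this
  have g6 : u 6 - 2 * u 0 * u 7 + 2 * u 4 * u 3 + u 5 * u 2 = c * s 2 := by
    have := congrFun hff 6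
    simp [ff, i1, j1, c1, i2, j2, c2, i3, j3, c3] at this
    linear_combination this
  have g7 : u 7 + u 3 * u 5 = c * s 3 := by
    have := congrFun hff 7
    simp [ff, i1, j1, c1, i2, j2, c2, i3, j3, c3] at this
    linear_combination this
  refine ⟨c, hc, ![qf (u 1) (u 2) (u 3), qf (-u 0) 0 0],
    ![qf 0 0 (u 7), qf (-u 4) (-u 5) (-u 6)], ?_, ?_, ?_, ?_, ?_⟩
  · intro i
    fin_cases i
    · exact qf_hom _ _ _
    · exact qf_hom _ _ _
  · intro i
    fin_cases i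
    · exact qf_hom _ _ _
    · exact qf_hom _ _ _
  · have h0 := nr1_qf (u 1) (u 2) (u 3)
    have h1 := nr1_qf (-u 0) 0 0
    rw [norm_neg, norm_zero] at h1
    have e : nrm ![qf (u 1) (u 2) (u 3), qf (-u 0) 0 0] =
        nr1 (qf (u 1) (u 2) (u 3)) + nr1 (qf (-u 0) 0 0) := by
      unfold nrm; rw [Fin.sum_univ_two]; rfl
    rw [e]
    linarith [hu 0, hu 1, hu 2, hu 3]
  · have h0 := nr1_qf 0 0 (u 7)
    have h1 := nr1_qf (-u 4) (-u 5) (-u 6)
    rw [norm_zero] at h0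
    rw [norm_neg, norm_neg, norm_neg] at h1
    have e : nrm ![qf 0 0 (u 7), qf (-u 4) (-u 5) (-u 6)] =
        nr1 (qf 0 0 (u 7)) + nr1 (qf (-u 4) (-u 5) (-u 6)) := by
      unfold nrm; rw [Fin.sum_univ_two]; rfl
    rw [e]
    linarith [hu 4, hu 5, hu 6, hu 7]
  · funext i
    apply MvPolynomial.funext
    intro x
    fin_cases i
    · have := hr x
      simp [br, xE, yE, qf, Fin.sum_univ_two, Derivation.leibniz, pderiv_X, Pi.single_apply,
        this, smul_eval]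
      linear_combination x 0 ^ 3 * g0 + x 0 ^ 2 * x 1 * g1 + x 0 * x 1 ^ 2 * g2 + x 1 ^ 3 * g3
    · have := hs' x
      simp [br, xE, yE, qf, Fin.sum_univ_two, Derivation.leibniz, pderiv_X, Pi.single_apply,
        this, smul_eval]
      linear_combination x 0 ^ 3 * g4 + x 0 ^ 2 * x 1 * g5 + x 0 * x 1 ^ 2 * g6 + x 1 ^ 3 * g7

end Pool.Agent.L7h12.RV
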