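import Pool.Agent.L7h12.RV.Mu

set_option autoImplicit false

/-! # RV, part LS: products of a diagonal matrix and an involution with a good spectrum -/

namespace Pool.Agent.L7h12.RV

open Pool.Agent.L7h57.RV Pool.Helper89.Rev Polynomial

theorem gen_mu (m : ℕ) (p c' : ℂ) (S : Finset ℂ) (hp : p ≠ 0) :
    ∃ μ : Fin (m + 2) → ℂ, Function.Injective μ ∧ (∀ k, μ k ∉ S) ∧ ∏ k, μ k = p ∧
      ((p ≠ 1 ∨ 1 ≤ m) → ∑ k, μ k - ∑ k, (μ k)⁻¹ ≠ c') := by
  classical
  obtain ⟨μ, h1, h2, h3⟩ : ∃ μ : Fin m → ℂ, Function.Injective μ ∧ (∀ k, μ k ∉ insert 0 S) ∧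
      ((p ≠ 1 ∨ 1 ≤ m) → ∏ k, μ k ≠ p) := by
    by_cases h : p ≠ 1 ∨ 1 ≤ m
    · obtain ⟨μ, h1, h2, h3⟩ := exists_inj_prod m (insert 0 S) p h
      exact ⟨μ, h1, h2, fun _ => h3⟩
    · obtain ⟨μ, h1, h2⟩ := exists_inj m (insert 0 S)
      exact ⟨μ, h1, h2, fun h' => absurd h' h⟩
  have hμ0 : ∀ k, μ k ≠ 0 := fun k h => h2 k (by simp [h])
  have hμS : ∀ k, μ k ∉ S := fun k h => h2 k (by simp [h])
  have hne : ∏ k, μ k ≠ 0 := Finset.prod_ne_zero_iff.2 fun k _ => hμ0 k
  set q : ℂ := p / ∏ k, μ k with hq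
  have hq0 : q ≠ 0 := div_ne_zero hp hne
  set c : ℂ := ∑ k, μ k - ∑ k, (μ k)⁻¹ - c' with hc
  set P : ℂ[X] := C (1 - q⁻¹) * X ^ 2 + C c * X + C (q - 1) with hP
  set Q : ℂ[X] := X ^ 2 - C q with hQ
  have hQ0 : Q ≠ 0 := by
    intro h
    have h4 : Q.eval 0 = 0 := by rw [h, eval_zero]
    rw [hQ] at h4
    simp at h4
    exact hq0 h4
  set S' : Finset ℂ := S ∪ Finset.univ.image μ with hS'
  obtain ⟨t, ht⟩ := Infinite.exists_notMem_finset
    (insert 0 (S' ∪ (S'.image (fun s => q / s) ∪ (P.roots.toFinset ∪ Q.roots.toFinset))))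
  simp only [Finset.mem_insert, Finset.mem_union, not_or] at ht
  obtain ⟨ht0, htS', htq, htP, htQ⟩ := ht
  have hqt : q / t ∉ S' := by
    intro h
    apply htq
    rw [Finset.mem_image]
    refine ⟨q / t, h, ?_⟩
    field_simp
  have hqt0 : q / t ≠ 0 := div_ne_zero hq0 ht0
  have htt : t ≠ q / t := by
    intro h
    apply htQ
    rw [Multiset.mem_toFinset, mem_roots hQ0, IsRoot.def, hQ]
    have : t * t = q := by
      rw [eq_div_iff ht0] at h
      exact h
    simp
    linear_combination this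
  have hS'1 : ∀ x, x ∉ S' → x ∉ S := fun x hx h => hx (Finset.mem_union_left _ h)
  have hS'2 : ∀ x, x ∉ S' → ∀ k, x ≠ μ k := fun x hx k h => hx (Finset.mem_union_right _
    (by rw [h]; exact Finset.mem_image_of_mem _ (Finset.mem_univ _)))
  refine ⟨Fin.cons t (Fin.cons (q / t) μ), ?_, ?_, ?_, ?_⟩
  · rw [Fin.cons_injective_iff, Fin.cons_injective_iff]
    refine ⟨?_, ?_, h1⟩
    · rintro ⟨k, hk⟩
      revert hk
      refine Fin.cases ?_ (fun k => ?_) k
      · intro hk
        exact htt (by simpa using hk.symm)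
      · intro hk
        exact hS'2 t htS' k (by simpa using hk.symm)
    · rintro ⟨k, hk⟩
      exact hS'2 _ hqt k hk.symm
  · intro k
    refine Fin.cases ?_ (fun k => ?_) k
    · simpa using hS'1 t htS'
    · refine Fin.cases ?_ (fun k => ?_) k
      · simpa using hS'1 _ hqt
      · simpa using hμS k
  · rw [Fin.prod_univ_succ, Fin.prod_univ_succ]
    simp only [Fin.cons_zero, Fin.cons_succ]
    rw [hq]
    field_simp
  · intro hcond
    have hq1 : q ≠ 1 := by
      intro h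
      rw [hq, div_eq_one_iff_eq hne] at h
      exact h3 hcond h.symm
    have hP0 : P ≠ 0 := by
      intro h
      have h4 : P.eval 0 = 0 := by rw [h, eval_zero]
      rw [hP] at h4
      simp at h4
      exact hq1 (by linear_combination h4)
    have htP' : P.eval t ≠ 0 := by
      intro h
      apply htP
      rw [Multiset.mem_toFinset, mem_roots hP0]
      exact h
    rw [Fin.sum_univ_succ, Fin.sum_univ_succ, Fin.sum_univ_succ, Fin.sum_univ_succ]
    simp only [Fin.cons_zero, Fin.cons_succ]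
    intro h
    apply htP'
    rw [hP]
    simp only [eval_add, eval_mul, eval_C, eval_pow, eval_X]
    have e1 : t * (t + (q / t + ∑ k, μ k)) - t * (t⁻¹ + ((q / t)⁻¹ + ∑ k, (μ k)⁻¹)) = t * c' := by
      rw [← mul_sub, h]
    have e2 : t * (t + (q / t + ∑ k, μ k)) = t ^ 2 + q + t * ∑ k, μ k := by
      field_simp
      ring
    have e3 : t * (t⁻¹ + ((q / t)⁻¹ + ∑ k, (μ k)⁻¹)) = 1 + t ^ 2 * q⁻¹ + t * ∑ k, (μ k)⁻¹ := by
      field_simp
      ring
    rw [e2, e3] at e1
    rw [hc]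
    linear_combination e1

/-- one block: `diag l * s` is similar to `diag μ` -/
theorem block (h1 : S_CAU) {n : ℕ} (l μ : Fin n → ℂ) (hl : Function.Injective l)
    (hμ : Function.Injective μ) (hlm : ∀ i k, l i ≠ μ k) (hl0 : ∀ i, l i ≠ 0)
    (hp : ∏ k, μ k = -∏ i, l i) :
    ∃ s Q : Matrix (Fin n) (Fin n) ℂ, s * s = 1 ∧ IsUnit Q ∧
      Q * (Matrix.diagonal l * s) = Matrix.diagonal μ * Q := by
  obtain ⟨v, Q, hQ, hQ2, -, hv⟩ := h1 n l μ hl hμ hlm hl0
  exact ⟨Sm v, Q, Sm_sq v (hv hp), hQ, hQ2⟩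

theorem s_LS (h1 : S_CAU) (_h2 : S_MU) : S_LS := by
  classical
  intro n hn l hl hprod
  have hp0 : ∏ i, l i ≠ 0 := by
    rcases hprod with h | h <;> rw [h] <;> norm_num
  have hl0 : ∀ i, l i ≠ 0 := fun i => (Finset.prod_ne_zero_iff.1 hp0) i (Finset.mem_univ i)
  rcases hprod with hprod | hprod
  · -- product one
    obtain ⟨m, rfl⟩ : ∃ m, n = m + 2 := ⟨n - 2, by omega⟩
    obtain ⟨μ, k1, k2, k3, k4⟩ := gen_mu m (-1) 0
      (Finset.univ.image l ∪ Finset.univ.image (bv : Fin (m + 2) → ℂ)) (by norm_num)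
    have k4' := k4 (Or.inl (by norm_num))
    obtain ⟨s, Q, b1, b2, b3⟩ := block h1 l μ hl k1 (fun i k h => k2 k (by
      rw [← h]; simp)) hl0 (by rw [k3, hprod])
    refine ⟨s, Q, μ, b1, b2, b3, k1, fun i k h => k2 k (by rw [← h]; simp), k3, fun h => k4' ?_⟩
    rw [h, sub_self]
  · rcases Nat.even_or_odd n with hev | hodd
    · -- even dimension, at least four
      obtain ⟨m', hm'⟩ : ∃ m', n = 2 + (m' + 2) := ⟨n - 4, by
        obtain ⟨a, ha⟩ := hev; omega⟩
      subst hm'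
      set e : Fin 2 ⊕ Fin (m' + 2) ≃ Fin (2 + (m' + 2)) := finSumFinEquiv with he
      set l1 : Fin 2 → ℂ := fun i => l (e (Sum.inl i)) with hl1
      set l2 : Fin (m' + 2) → ℂ := fun i => l (e (Sum.inr i)) with hl2
      have hle : l ∘ e = Sum.elim l1 l2 := by
        funext x; rcases x with x | x <;> rfl
      have hpr : (∏ i, l1 i) * ∏ i, l2 i = -1 := by
        rw [← hprod, ← Equiv.prod_comp e l, Fintype.prod_sum_type]
      have hl1i : Function.Injective l1 := fun a b h => Sum.inl_injective (e.injective (hl h))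
      have hl2i : Function.Injective l2 := fun a b h => Sum.inr_injective (e.injective (hl h))
      have hl10 : ∀ i, l1 i ≠ 0 := fun i => hl0 _
      have hl20 : ∀ i, l2 i ≠ 0 := fun i => hl0 _
      have hq1 : ∏ i, l1 i ≠ 0 := Finset.prod_ne_zero_iff.2 fun i _ => hl10 i
      have hq2 : ∏ i, l2 i ≠ 0 := Finset.prod_ne_zero_iff.2 fun i _ => hl20 i
      set S : Finset ℂ := Finset.univ.image l ∪
        Finset.univ.image (bv : Fin (2 + (m' + 2)) → ℂ) with hS
      have hSl : ∀ i, l i ∈ S := fun i => Finset.mem_union_left _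
        (Finset.mem_image_of_mem _ (Finset.mem_univ _))
      have hSb : ∀ i, bv i ∈ S := fun i => Finset.mem_union_right _
        (Finset.mem_image_of_mem _ (Finset.mem_univ _))
      -- choose both blocks
      obtain ⟨μ1, μ2, a1, a2, a3, a4, a5, a6, a7, a8⟩ : ∃ (μ1 : Fin 2 → ℂ) (μ2 : Fin (m' + 2) → ℂ),
          Function.Injective μ1 ∧ Function.Injective μ2 ∧ (∀ k, μ1 k ∉ S) ∧ (∀ k, μ2 k ∉ S) ∧
          (∀ i k, μ1 i ≠ μ2 k) ∧ ∏ k, μ1 k = -∏ i, l1 i ∧ ∏ k, μ2 k = -∏ i, l2 i ∧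
          ∑ k, μ1 k + ∑ k, μ2 k ≠ ∑ k, (μ1 k)⁻¹ + ∑ k, (μ2 k)⁻¹ := by
        by_cases hc : -∏ i, l1 i = 1
        · have hc2 : -∏ i, l2 i ≠ 1 := by
            intro h
            have h5 : ∏ i, l1 i = -1 := by linear_combination -hc
            have h6 : ∏ i, l2 i = -1 := by linear_combination -h
            rw [h5, h6] at hpr
            norm_num at hpr
          obtain ⟨μ1, x1, x2, x3, -⟩ := gen_mu 0 (-∏ i, l1 i) 0 S (neg_ne_zero.2 hq1)
          obtain ⟨μ2, y1, y2, y3, y4⟩ := gen_mu m' (-∏ i, l2 i)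
            (∑ k, (μ1 k)⁻¹ - ∑ k, μ1 k) (S ∪ Finset.univ.image μ1) (neg_ne_zero.2 hq2)
          have y4' := y4 (Or.inl hc2)
          refine ⟨μ1, μ2, x1, y1, x2, fun k h => y2 k (Finset.mem_union_left _ h),
            fun i k h => y2 k (Finset.mem_union_right _ (by rw [← h]; simp)), x3, y3,
            fun h => y4' ?_⟩
          linear_combination h
        · obtain ⟨μ2, y1, y2, y3, -⟩ := gen_mu m' (-∏ i, l2 i) 0 S (neg_ne_zero.2 hq2)
          obtain ⟨μ1, x1, x2, x3, x4⟩ := gen_mu 0 (-∏ i, l1 i)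
            (∑ k, (μ2 k)⁻¹ - ∑ k, μ2 k) (S ∪ Finset.univ.image μ2) (neg_ne_zero.2 hq1)
          have x4' := x4 (Or.inl hc)
          refine ⟨μ1, μ2, x1, y1, fun k h => x2 k (Finset.mem_union_left _ h), y2,
            fun i k h => x2 i (Finset.mem_union_right _ (by rw [h]; simp)), x3, y3,
            fun h => x4' ?_⟩
          linear_combination h
      obtain ⟨s1, Q1, b1, b2, b3⟩ := block h1 l1 μ1 hl1i a1
        (fun i k h => a3 k (by rw [← h]; exact hSl _)) hl10 a6
      obtain ⟨s2, Q2, d1, d2, d3⟩ := block h1 l2 μ2 hl2i a2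
        (fun i k h => a4 k (by rw [← h]; exact hSl _)) hl20 a7
      set R := Matrix.reindexAlgEquiv ℂ ℂ e with hR
      have hdiag : ∀ d : Fin 2 ⊕ Fin (m' + 2) → ℂ, R (Matrix.diagonal d) =
          Matrix.diagonal (d ∘ e.symm) := by
        intro d
        rw [hR, Matrix.reindexAlgEquiv_apply, Matrix.reindex_apply,
          Matrix.submatrix_diagonal_equiv]
      have hdl : Matrix.diagonal l = R (Matrix.diagonal (Sum.elim l1 l2)) := by
        rw [hdiag, ← hle]
        congr 1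
        funext x
        simp
      refine ⟨R (Matrix.fromBlocks s1 0 0 s2), R (Matrix.fromBlocks Q1 0 0 Q2),
        Sum.elim μ1 μ2 ∘ e.symm, ?_, ?_, ?_, ?_, ?_, ?_, ?_⟩
      · rw [← map_mul, Matrix.fromBlocks_multiply]
        simp only [b1, d1, Matrix.mul_zero, Matrix.zero_mul, add_zero, zero_add]
        rw [Matrix.fromBlocks_one, map_one]
      · exact (Matrix.isUnit_fromBlocks_zero₂₁.2 ⟨b2, d2⟩).map R
      · rw [hdl, ← hdiag, ← map_mul, ← map_mul, ← map_mul, ← Matrix.fromBlocks_diagonal,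
          ← Matrix.fromBlocks_diagonal, Matrix.fromBlocks_multiply, Matrix.fromBlocks_multiply,
          Matrix.fromBlocks_multiply]
        simp only [Matrix.mul_zero, Matrix.zero_mul, add_zero, zero_add, b3, d3]
      · exact (a1.sumElim a2 a5).comp e.symm.injective
      · intro i k h
        have hbS := hSb i
        rw [h] at hbS
        have : (Sum.elim μ1 μ2 ∘ e.symm) k = Sum.elim μ1 μ2 (e.symm k) := rfl
        rw [this] at hbS
        rcases hx : e.symm k with x | x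
        · rw [hx] at hbS
          exact a3 x hbS
        · rw [hx] at hbS
          exact a4 x hbS
      · have : ∏ k, (Sum.elim μ1 μ2 ∘ e.symm) k = ∏ x, Sum.elim μ1 μ2 x :=
          Equiv.prod_comp e.symm (Sum.elim μ1 μ2)
        rw [this, Fintype.prod_sum_type]
        simp only [Sum.elim_inl, Sum.elim_inr]
        rw [a6, a7]
        linear_combination hpr
      · have t1 : ∑ k, (Sum.elim μ1 μ2 ∘ e.symm) k = ∑ x, Sum.elim μ1 μ2 x :=
          Equiv.sum_comp e.symm (Sum.elim μ1 μ2)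
        have t2 : ∑ k, ((Sum.elim μ1 μ2 ∘ e.symm) k)⁻¹ = ∑ x, (Sum.elim μ1 μ2 x)⁻¹ :=
          Equiv.sum_comp e.symm (fun x => (Sum.elim μ1 μ2 x)⁻¹)
        rw [t1, t2, Fintype.sum_sum_type, Fintype.sum_sum_type]
        simp only [Sum.elim_inl, Sum.elim_inr]
        exact a8
    · -- odd dimension
      obtain ⟨m, rfl⟩ : ∃ m, n = m + 2 := ⟨n - 2, by omega⟩
      obtain ⟨μ, k1, k2, k3, k4⟩ := gen_mu m 1 0
        (Finset.univ.image l ∪ Finset.univ.image (fun i : Fin (m + 2) => -bv i)) (by norm_num)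
      have k4' := k4 (Or.inr (by omega))
      obtain ⟨s, Q, b1, b2, b3⟩ := block h1 l μ hl k1 (fun i k h => k2 k (by
        rw [← h]; simp)) hl0 (by rw [k3, hprod]; norm_num)
      refine ⟨-s, Q, fun k => -μ k, ?_, b2, ?_, ?_, ?_, ?_, ?_⟩
      · rw [neg_mul_neg, b1]
      · rw [Matrix.mul_neg, Matrix.mul_neg, b3, ← Matrix.neg_mul]
        congr 1
        rw [Matrix.diagonal_neg]
      · exact fun a b h => k1 (neg_injective h)
      · intro i k h
        apply k2 k
        rw [Finset.mem_union]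
        right
        rw [Finset.mem_image]
        exact ⟨i, Finset.mem_univ _, by rw [h, neg_neg]⟩
      · rw [Finset.prod_neg]
        simp only [Finset.card_univ, Fintype.card_fin]
        rw [k3, hodd.neg_one_pow, mul_one]
      · intro h
        apply k4'
        simp only [inv_neg, Finset.sum_neg_distrib] at h
        linear_combination -h

end Pool.Agent.L7h12.RV
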