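import Pool.Agent.L7h57.RV.Stm

set_option autoImplicit false

/-! # RV, part MU: spectra with prescribed product -/

namespace Pool.Agent.L7h12.RV

open Pool.Agent.L7h57.RV Polynomial

theorem exists_inj (m : ℕ) (S : Finset ℂ) :
    ∃ μ : Fin m → ℂ, Function.Injective μ ∧ ∀ k, μ k ∉ S := by
  classical
  induction m with
  | zero => exact ⟨Fin.elim0, fun a => a.elim0, fun a => a.elim0⟩
  | succ m ih =>
    obtain ⟨μ, h1, h2⟩ := ih
    obtain ⟨x, hx⟩ := Infinite.exists_notMem_finset (S ∪ Finset.univ.image μ)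
    rw [Finset.mem_union, not_or] at hx
    refine ⟨Fin.cons x μ, ?_, ?_⟩
    · rw [Fin.cons_injective_iff]
      refine ⟨?_, h1⟩
      rintro ⟨k, rfl⟩
      exact hx.2 (Finset.mem_image_of_mem _ (Finset.mem_univ _))
    · intro k
      refine Fin.cases ?_ (fun k => ?_) k
      · simpa using hx.1
      · simpa using h2 k

theorem exists_inj_prod (m : ℕ) (S : Finset ℂ) (p : ℂ) (hp : p ≠ 1 ∨ 1 ≤ m) :
    ∃ μ : Fin m → ℂ, Function.Injective μ ∧ (∀ k, μ k ∉ S) ∧ ∏ k, μ k ≠ p := by
  classical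
  cases m with
  | zero =>
    refine ⟨Fin.elim0, fun a => a.elim0, fun a => a.elim0, ?_⟩
    rw [Fin.prod_univ_zero]
    rcases hp with h | h
    · exact fun e => h e.symm
    · omega
  | succ m =>
    obtain ⟨μ, h1, h2⟩ := exists_inj m (insert 0 S)
    have hne : ∏ k, μ k ≠ 0 := Finset.prod_ne_zero_iff.2 fun k _ h => h2 k (by simp [h])
    obtain ⟨x, hx⟩ := Infinite.exists_notMem_finset
      (insert (p / ∏ k, μ k) (S ∪ Finset.univ.image μ))
    rw [Finset.mem_insert, not_or, Finset.mem_union, not_or] at hx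
    refine ⟨Fin.cons x μ, ?_, ?_, ?_⟩
    · rw [Fin.cons_injective_iff]
      refine ⟨?_, h1⟩
      rintro ⟨k, rfl⟩
      exact hx.2.2 (Finset.mem_image_of_mem _ (Finset.mem_univ _))
    · intro k
      refine Fin.cases ?_ (fun k => ?_) k
      · simpa using hx.2.1
      · have := h2 k
        rw [Finset.mem_insert, not_or] at this
        simpa using this.2
    · rw [Fin.prod_univ_succ, Fin.cons_zero]
      simp only [Fin.cons_succ]
      intro h
      exact hx.1 (by rw [eq_div_iff hne, h])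

theorem s_MU : S_MU := by
  classical
  intro n p S hn hp hp1
  obtain ⟨m, rfl⟩ : ∃ m, n = m + 2 := ⟨n - 2, by omega⟩
  obtain ⟨μ, h1, h2, h3⟩ := exists_inj_prod m (insert 0 S) p (by
    rcases hp1 with h | h
    · exact Or.inl h
    · exact Or.inr (by omega))
  have hμ0 : ∀ k, μ k ≠ 0 := fun k h => h2 k (by simp [h])
  have hμS : ∀ k, μ k ∉ S := fun k h => h2 k (by simp [h])
  have hne : ∏ k, μ k ≠ 0 := Finset.prod_ne_zero_iff.2 fun k _ => hμ0 k
  set q : ℂ := p / ∏ k, μ k with hq
  have hq0 : q ≠ 0 := div_ne_zero hp hne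
  have hq1 : q ≠ 1 := by
    intro h
    rw [hq, div_eq_one_iff_eq hne] at h
    exact h3 h.symm
  set c : ℂ := ∑ k, μ k - ∑ k, (μ k)⁻¹ with hc
  set P : ℂ[X] := C (1 - q⁻¹) * X ^ 2 + C c * X + C (q - 1) with hP
  have hP0 : P ≠ 0 := by
    intro h
    have h4 : P.eval 0 = 0 := by rw [h, eval_zero]
    rw [hP] at h4
    simp at h4
    exact hq1 (by linear_combination h4)
  set Q : ℂ[X] := X ^ 2 - C q with hQ
  have hQ0 : Q ≠ 0 := by
    intro h
    have h4 : Q.eval 0 = 0 := by rw [h, eval_zero]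
    rw [hQ] at h4
    simp at h4
    exact hq0 h4
  set S' : Finset ℂ := S ∪ Finset.univ.image μ with hS'
  obtain ⟨t, ht⟩ := Infinite.exists_notMem_finset
    (insert 0 (S' ∪ (S'.image (fun s => q / s) ∪ (P.roots.toFinset ∪ Q.roots.toFinset))))
  simp only [Finset.mem_insert, Finset.mem_union, not_or] at ht
  obtain ⟨ht0, htS', htq, htP, htQ⟩ := ht
  have hqt : q / t ∉ S' := by
    intro h
    apply htq
    rw [Finset.mem_image]
    refine ⟨q / t, h, ?_⟩
    field_simp
  have hqt0 : q / t ≠ 0 := div_ne_zero hq0 ht0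
  have htt : t ≠ q / t := by
    intro h
    apply htQ
    rw [Multiset.mem_toFinset, mem_roots hQ0, IsRoot.def, hQ]
    have : t * t = q := by
      rw [eq_div_iff ht0] at h
      exact h
    simp
    linear_combination this
  have htP' : P.eval t ≠ 0 := by
    intro h
    apply htP
    rw [Multiset.mem_toFinset, mem_roots hP0]
    exact h
  have hS'1 : ∀ x, x ∉ S' → x ∉ S := fun x hx h => hx (Finset.mem_union_left _ h)
  have hS'2 : ∀ x, x ∉ S' → ∀ k, x ≠ μ k := fun x hx k h => hx (Finset.mem_union_right _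
    (by rw [h]; exact Finset.mem_image_of_mem _ (Finset.mem_univ _)))
  refine ⟨Fin.cons t (Fin.cons (q / t) μ), ?_, ?_, ?_, ?_, ?_⟩
  · rw [Fin.cons_injective_iff, Fin.cons_injective_iff]
    refine ⟨?_, ?_, h1⟩
    · rintro ⟨k, hk⟩
      revert hk
      refine Fin.cases ?_ (fun k => ?_) k
      · intro hk
        exact htt (by simpa using hk.symm)
      · intro hk
        exact hS'2 t htS' k (by simpa using hk.symm)
    · rintro ⟨k, hk⟩
      exact hS'2 _ hqt k hk.symm
  · intro k
    refine Fin.cases ?_ (fun k => ?_) k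
    · simpa using hS'1 t htS'
    · refine Fin.cases ?_ (fun k => ?_) k
      · simpa using hS'1 _ hqt
      · simpa using hμS k
  · intro k
    refine Fin.cases ?_ (fun k => ?_) k
    · simpa using ht0
    · refine Fin.cases ?_ (fun k => ?_) k
      · simpa using hqt0
      · simpa using hμ0 k
  · rw [Fin.prod_univ_succ, Fin.prod_univ_succ]
    simp only [Fin.cons_zero, Fin.cons_succ]
    rw [hq]
    field_simp
  · rw [Fin.sum_univ_succ, Fin.sum_univ_succ, Fin.sum_univ_succ, Fin.sum_univ_succ]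
    simp only [Fin.cons_zero, Fin.cons_succ]
    intro h
    apply htP'
    rw [hP]
    simp only [eval_add, eval_mul, eval_C, eval_pow, eval_X]
    have e1 : t * (t + (q / t + ∑ k, μ k)) = t * (t⁻¹ + ((q / t)⁻¹ + ∑ k, (μ k)⁻¹)) := by rw [h]
    have e2 : t * (t + (q / t + ∑ k, μ k)) = t ^ 2 + q + t * ∑ k, μ k := by
      field_simp
      ring
    have e3 : t * (t⁻¹ + ((q / t)⁻¹ + ∑ k, (μ k)⁻¹)) = 1 + t ^ 2 * q⁻¹ + t * ∑ k, (μ k)⁻¹ := by
      field_simp
      ring
    rw [e2, e3] at e1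
    rw [hc]
    linear_combination e1

end Pool.Agent.L7h12.RV
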